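import Pool.Agent.Lib.MP_69a69c_lc.HidMain
import Pool.Agent.Lib.MP_69a69c_lc.NegHidden

/-!
# MP_69a69c_lc: sparse sets that are complete for NP under Cook reductions with boundedly many
negative answers
-/

namespace Pool.Agent.Results.MP_69a69c_lc.FewNegativeAnswers

open Pool.Agent.SparseNP

/-- If a sparse language `S` in NP is complete for NP under adaptive polynomial-time Turing
reductions that receive a bounded number of negative answers from `S` (on the positive inputs, or
on the negative inputs), and any number of positive answers, then P = NP. -/
theorem result (S : Set (List Bool)) (hsparse : Sparse S) (hNP : InNP S)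
    (h : ∀ L : Set (List Bool), InNP L → FewNegativeReducible S L) :
    ∀ L : Set (List Bool), InNP L → InP L :=
  mainH S hNP hsparse fun L hL => hidden_of hsparse (fewNeg_of (h L hL))

end Pool.Agent.Results.MP_69a69c_lc.FewNegativeAnswers
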