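import Pool.Agent.Lib.MP_69a69c_lc.Final

/-!
# MP_69a69c_lc: sparse sets that are complete for NP under threshold reductions of bounded degree
-/

namespace Pool.Agent.Results.MP_69a69c_lc.MajorityComplete

open Pool.Agent.SparseNP

/-- If a sparse language `S` in NP is complete for NP under threshold reductions of bounded degree
(which include disjunctive, conjunctive, majority and bounded truth-table reductions),
then P = NP. -/
theorem result (S : Set (List Bool)) (hsparse : Sparse S) (hNP : InNP S)
    (h : ∀ L : Set (List Bool), InNP L → ThresholdReducible S L) :
    ∀ L : Set (List Bool), InNP L → InP L :=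
  main2 S hsparse hNP h

end Pool.Agent.Results.MP_69a69c_lc.MajorityComplete
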