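import Pool.Agent.Lib.MP_0a1b52_lc_SC.FinalC

/-!
# CLIQUE in any encoding is not Cook reducible to a sparse set by multihead stack machines with few
head moves

Multihead stack programs with a query tape (`OHeadProg`, `ONHeadProg`, file
`MP_69a69c_lc_SH/OModel.lean`): nonuniform machines with `w` states, `k` two-way input heads, a
stack and a write-only query tape.  The height of the stack, the number of its moves and the number
of queries are not bounded (without bound for the number of head moves the machines of this kind of
polynomial width are at least as strong as polynomial time machines, Cook 1971).  The moves of the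
heads, one cell to the left or to the right, may depend on everything the machine sees, but there
are only `T` of them.

The input is a graph with `n` vertices, given by its edge bits `x e` (`e` in `EdgeVar n`), which are
written on the input tape in an arbitrary order `φ`: the cell `c` carries the bit of the pair `φ c`;
no pair is written more than `r` times.  So the input may be an adjacency matrix or one may have a
copy of the list of the edge bits for each head, in an order which is chosen for this head.

For every number of heads `k`, every `r` and every `ε > 0` there are, for all large `n`, graphs
`Q 0, ..., Q (N - 1)` without a clique of more than `√n` vertices such that for every `φ`, every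
oracle `A` with at most `2 ^ S` words of each length, for `T ≥ n (n - 1) / 2` head moves with
`T * S ≤ n ^ (4 - ε)` and width at most `2 ^ S`: a nondeterministic program which accepts no graph
with a clique of more than `√n` vertices accepts at most the fraction `2 ^ (-n ^ (2 - ε))` of the
graphs `Q i`; in particular no deterministic program decides whether the graph has such a clique.

Proof: instead of the query tape the simulating program (without oracle) keeps the node of the
trie of the oracle.  The tape is cut into a constant number of blocks.  As every pair is written in
few cells, and most pairs have all their copies far from the ends of the blocks (for a good offset),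
one finds `p = 2 k + 2` disjoint classes of blocks such that for each class the pairs with all their
copies in the blocks of this class, without margins, are a constant fraction of all pairs.  The set
of the blocks, without margins, in which there is a head changes only a bounded number of times if
`T` is at most a constant times `n ^ 2`, and `O(T / n ^ (2 - ε'))` times in general.  The pairs of
times (push, pop) of a computation are noncrossing, hence they belong to few pairs of phases, each
of which touches at most `2 k` of the classes.  So for every pair of phases some two classes are not
touched, and the computation is guessed by transcripts, each of which is an intersection of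
cylinders of a kind (`StarK`) for the `p` classes of pairs.  The graphs `Q i` come from instances of
disjointness for `p` players in which the sets of the players are coded by classes of edges of a
random embedding; the bound of Rao and Yehudayoff for the discrepancy of disjointness shows that
such intersections without graphs with large cliques have exponentially small measure.
-/

set_option autoImplicit false

namespace Pool.Agent.Results.MP_69a69c_lc.SparseHeads

open Pool.Agent.FP (EdgeVar Clq)
open Pool.Agent.StackO (AtMostPerLength)
open Pool.Agent.SH (OHeadProg ONHeadProg)

/-- the number of elements with a property, as the size of a finite set -/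
private theorem card_eq {α : Type} [Fintype α] (p : α → Prop) [DecidablePred p] :
    Nat.card {a : α // p a} = (Finset.univ.filter p).card := by
  rw [Nat.card_eq_fintype_card, Fintype.card_subtype]

theorem result (ε : ℝ) (hε : 0 < ε) (hε1 : ε ≤ 1) (k r : ℕ) : ∃ n₀ : ℕ, ∀ n ≥ n₀,
    ∃ (N : ℕ) (Q : Fin N → EdgeVar n → Bool), 0 < N ∧ (∀ i, ¬ Clq (Q i)) ∧
      ∀ (m : ℕ) (φ : Fin m → EdgeVar n) (A : Set (List Bool)) (T S w : ℕ),
      n.choose 2 ≤ m → (∀ e, Nat.card {c : Fin m // φ c = e} ≤ r) →
      AtMostPerLength A (2 ^ S) → n.choose 2 ≤ T → 1 ≤ S → w ≤ 2 ^ S →
      (T : ℝ) * S ≤ (n : ℝ) ^ (4 - ε) →
      (∀ P : ONHeadProg m k w,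
        (∀ x : EdgeVar n → Bool, Clq x → ¬ P.Accepts A (2 ^ S) T (fun c => x (φ c))) →
        (Nat.card {i : Fin N // P.Accepts A (2 ^ S) T (fun c => Q i (φ c))} : ℝ) ≤
          N * (2 : ℝ) ^ (-((n : ℝ) ^ (2 - ε)))) ∧
      ¬ ∃ P : OHeadProg m k w, ∀ x : EdgeVar n → Bool,
        (Clq x → P.Outputs A (2 ^ S) T (fun c => x (φ c)) true) ∧
        (¬ Clq x → P.Outputs A (2 ^ S) T (fun c => x (φ c)) false) := by
  obtain ⟨n₀, hn₀⟩ := Pool.Agent.SC.resultC ε hε hε1 k r
  refine ⟨n₀, fun n hn => ?_⟩
  obtain ⟨N, Q, hN, hQ, hmain⟩ := hn₀ n hn
  refine ⟨N, Q, hN, hQ, fun m φ A T S w hm hφ hA hT hS hw hTS => ?_⟩
  obtain ⟨h1, h2⟩ := hmain m φ hm (fun e => by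
    rw [← card_eq]
    exact hφ e) A T S w hA hT hS hw hTS
  refine ⟨fun P hP => ?_, ?_⟩
  · have h4 := h1 P fun x hx hc => hP x hc hx
    rw [← card_eq] at h4
    exact h4
  · rintro ⟨P, hP⟩
    refine h2 ⟨P, fun x => ?_⟩
    classical
    by_cases hx : Clq x
    · rw [decide_eq_true hx]
      exact (hP x).1 hx
    · rw [decide_eq_false hx]
      exact (hP x).2 hx

end Pool.Agent.Results.MP_69a69c_lc.SparseHeads
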