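import Mathlib
import Pool.Agent.Lib.MP_69a69c_lc_SR.FinalF
import Pool.Agent.Lib.MP_69a69c_lc_SR.FinalV
import Pool.Agent.Lib.MP_69a69c_lc_SR.Free

set_option autoImplicit false

/-!
# Cook reductions of the clique problem to sparse sets read their input often

The definitions of the variables and of the clique function (`EdgeVar`, `graphOf`, `HasClique`,
`Clq`) are in `Pool/Agent/Lib/MP_0a1b52_lc_FP/Defs.lean`, those of circuits with an oracle and of
certificate trees (`OGate`, `OCircuit`, `OCircuit.IsEval`, `OCircuit.HasValue`, `OCircuit.Cert`,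
`OCircuit.AsksFew`) are in `Pool/Agent/Lib/MP_69a69c_lc_SR/Defs.lean`, those of the size of a
circuit (`OGate.fanIn`, `OCircuit.size`) and of the bound (`Hard`) are in
`Pool/Agent/Lib/MP_69a69c_lc_SR/DefsH.lean`.
-/

namespace Pool.Agent.Results.MP_69a69c_lc.SparseReadTimes

open Pool.Agent.FP Pool.Agent.SR Finset

/-- **For the clique function, circuits with a sparse oracle have to read some variable of each
small set of variables often, even if all functions of the other variables are free.**

`Hard b r E S` says: there are inputs `Q 0, …, Q (N - 1)` on which `b` is the right value, such that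
circuits with an oracle with at most `K` words of each length which is asked for, with random
choices and with any functions of them and of the variables outside `E` as free inputs, whose
value `b` is never wrong and which read each variable in `E` at most `r` times in each certificate
tree for the value `b`, have the value `b` on at most a fraction `K * d / S` of the pairs of a
`Q i` and a random choice, where `d` is the number of gates and wires.

1. Let `r ≥ 1`, `V = 2 ^ (132 √r)` and let `E` be a set of variables of the graphs on `n`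
   vertices.  If `|E| ≥ m`, `n ≥ m` and `m ≥ V ^ 2`, then `Hard b r E S` holds for `b = 0` and
   `S = 2 ^ (m / V ^ 2)`.  If `m ≥ V`, and `|E| ≥ m ^ 2`, `n ≥ m ^ 2`, or `E` touches at least `2 m`
   vertices (the elements of `W`) and `n ≥ 9 m ^ 2`, then `Hard b r E S` holds for both `b` and
   `S = 2 ^ (m / V)`.
2. For the set `E` of the edges `{z i, u i}` (`i < m`) of a star forest (the vertices `u i` are
   distinct and no `z i` is a `u j`) with `m ≥ m₀` edges and `n ≥ m ^ 7`, `Hard b 1 E S` holds for
   both `b` and `S = 2 ^ m / m ^ 13`.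
3. Every circuit `D` with an oracle has for every `b` and every set `E` of its variables (except
   the set of all variables) a circuit `D'` of size at most `2 ^ |E| * (3 * D.size + 19)` with the
   same values, which satisfies the same bounds for the numbers of words of the oracles, and which
   reads each variable in `E` at most once in each certificate tree for the value `b`. -/
theorem result :
    (∀ (r m n : ℕ) (V : ℝ), 1 ≤ r → V = (2 : ℝ) ^ (132 * Real.sqrt r) →
      ∀ E : Finset (EdgeVar n),
        (V ^ 2 ≤ m → m ≤ n → m ≤ E.card → Hard false r E ((2 : ℝ) ^ (m / V ^ 2))) ∧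
        (V ≤ m →
          ((m ^ 2 ≤ E.card ∧ m ^ 2 ≤ n) ∨
            (∃ W : Finset (Fin n), 2 * m ≤ W.card ∧ ∀ v ∈ W, ∃ e ∈ E, e.1.1 = v ∨ e.1.2 = v) ∧
              9 * m ^ 2 ≤ n) →
          ∀ b : Bool, Hard b r E ((2 : ℝ) ^ (m / V)))) ∧
    (∃ m₀ : ℕ, ∀ (b : Bool) (m n : ℕ), m₀ ≤ m → m ^ 7 ≤ n →
      ∀ z u : Fin m → Fin n, Function.Injective u → (∀ i j, z i ≠ u j) →
      ∀ e : Fin m → EdgeVar n, (∀ i, (e i).1 = (z i, u i) ∨ (e i).1 = (u i, z i)) →
        Hard b 1 (univ.image e) (2 ^ m / m ^ 13)) ∧
    ∀ (V : Type) [DecidableEq V] (s : ℕ) (D : OCircuit V s) (b : Bool) (E : Finset V),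
      (∃ v, v ∉ E) →
      ∃ (t : ℕ) (D' : OCircuit V t), D'.size ≤ 2 ^ E.card * (3 * D.size + 19) ∧
        (∀ (A : Set (List Bool)) (x : V → Bool) (c : Bool),
          D'.HasValue A x c ↔ D.HasValue A x c) ∧
        (∀ (A : Set (List Bool)) (K : ℝ), D.AsksFew A K → D'.AsksFew A K) ∧
        ∀ e ∈ E, ∀ L, D'.Cert D'.out b L → L.count e ≤ 1 := by
  refine ⟨?_, boundX, fun _ _ _ D b E hE => few D b E hE⟩
  rintro r m n V hr rfl E
  refine ⟨fun h1 h2 h3 => ?_, fun h1 h2 b => boundV b r m n hr h1 E h2⟩
  have h4 : ((2 : ℝ) ^ (132 * Real.sqrt r)) ^ 2 = (2 : ℝ) ^ (264 * Real.sqrt r) := by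
    rw [← Real.rpow_mul_natCast (by norm_num)]
    congr 1
    push_cast
    ring
  rw [h4] at h1 ⊢
  have h5 := bound false 1 (by simp) r m n hr h1 h2 E h3
  rwa [Real.rpow_one] at h5

end Pool.Agent.Results.MP_69a69c_lc.SparseReadTimes
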